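import Mathlib

/-!
The abstract path theorem used for the Boolean Ramsey numbers of the posets `V_{m,m}`.

`W` is a finite set with one more element than the set `C` of colours.  At every time `t`
every proper subset `A` of `W` has a colour `c t A` and a total relation `R t A` on the
elements outside `A`.  Then there are a direction `d ∈ W` and a monotone sequence `A 0 ⊆ A 1 ⊆ …`
of subsets of `W \ {d}` such that at every time `t < n` the set `A t` is *good*: its colour is
not in `C`, or there is an earlier root of the same colour strictly below.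
-/

namespace Pool.Agent.R163.VPath

variable {α κ : Type*} [DecidableEq α] [DecidableEq κ]

/-- `A` is good at time `t` for the direction `d`. -/
def Good (C : Finset κ) (c : ℕ → Finset α → κ) (R : ℕ → Finset α → α → α → Prop)
    (t : ℕ) (A : Finset α) (d : α) : Prop :=
  c t A ∉ C ∨ ∃ t' ≤ t, ∃ A' ⊂ A, c t' A' = c t A ∧ ∃ y ∈ A, y ∉ A' ∧ R t' A' y d

/-- The relations are total at every coloured proper subset of `W`. -/
def Total (C : Finset κ) (W : Finset α) (c : ℕ → Finset α → κ)
    (R : ℕ → Finset α → α → α → Prop) : Prop :=
  ∀ t A, A ⊂ W → c t A ∈ C → ∀ x ∈ W, ∀ y ∈ W, x ≠ y → x ∉ A → y ∉ A → R t A x y ∨ R t A y x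

theorem exists_path (C : Finset κ) : ∀ (W : Finset α) (c : ℕ → Finset α → κ)
    (R : ℕ → Finset α → α → α → Prop), W.card = C.card + 1 → Total C W c R →
    ∀ n : ℕ, ∃ d ∈ W, ∃ A : ℕ → Finset α, Monotone A ∧ (∀ t, A t ⊆ W.erase d) ∧
      ∀ t < n, Good C c R t (A t) d := by
  classical
  induction C using Finset.strongInduction with
  | H C ih =>
  intro W c R hcard htot n
  have hWne : W.Nonempty := by
    rw [← Finset.card_pos]; omega
  by_contra hno
  -- the least length without a good path
  have hex : ∃ n : ℕ, ¬ ∃ d ∈ W, ∃ A : ℕ → Finset α, Monotone A ∧ (∀ t, A t ⊆ W.erase d) ∧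
      ∀ t < n, Good C c R t (A t) d := ⟨n, hno⟩
  let n0 := Nat.find hex
  have hn0 : ¬ ∃ d ∈ W, ∃ A : ℕ → Finset α, Monotone A ∧ (∀ t, A t ⊆ W.erase d) ∧
      ∀ t < n0, Good C c R t (A t) d := Nat.find_spec hex
  have hmin : ∀ m < n0, ∃ d ∈ W, ∃ A : ℕ → Finset α, Monotone A ∧ (∀ t, A t ⊆ W.erase d) ∧
      ∀ t < m, Good C c R t (A t) d := fun m hm => not_not.mp (Nat.find_min hex hm)
  have hn0pos : n0 ≠ 0 := by
    intro h0
    obtain ⟨d, hd⟩ := hWne
    exact hn0 ⟨d, hd, fun _ => ∅, monotone_const, fun _ => Finset.empty_subset _,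
      fun t ht => absurd ht (by omega)⟩
  obtain ⟨m, hm⟩ : ∃ m, n0 = m + 1 := ⟨n0 - 1, by omega⟩
  obtain ⟨e, heW, A, hAmono, hAsub, hAgood⟩ := hmin m (by omega)
  -- extend by `W \ {e}`
  have hbad : ¬ Good C c R m (W.erase e) e := by
    intro hg
    apply hn0
    refine ⟨e, heW, fun t => if t < m then A t else W.erase e, ?_, ?_, ?_⟩
    · intro s t hst
      dsimp only
      by_cases ht : t < m
      · rw [if_pos (lt_of_le_of_lt hst ht), if_pos ht]; exact hAmono hst
      · rw [if_neg ht]
        by_cases hs : s < m
        · rw [if_pos hs]; exact hAsub s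
        · rw [if_neg hs]
    · intro t
      dsimp only
      split_ifs
      · exact hAsub t
      · exact subset_rfl
    · intro t ht
      dsimp only
      by_cases htm : t < m
      · rw [if_pos htm]; exact hAgood t htm
      · rw [if_neg htm]
        have : t = m := by omega
        subst this; exact hg
  unfold Good at hbad
  push Not at hbad
  obtain ⟨hlC, hroot⟩ := hbad
  set l := c m (W.erase e) with hl
  -- every `l`-root avoiding `e` has `e` as a source
  have hsrc : ∀ t' ≤ m, ∀ A', A' ⊂ W.erase e → c t' A' = l → ∀ y ∈ W, y ≠ e → y ∉ A' →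
      R t' A' e y := by
    intro t' ht' A' hA' hc y hy hye hyA'
    have hA'W : A' ⊂ W := lt_of_lt_of_le hA' (Finset.erase_subset _ _)
    have heA' : e ∉ A' := fun h => by
      have := hA'.1 h
      simp at this
    rcases htot t' A' hA'W (by rw [hc]; exact hlC) e heW y hy (Ne.symm hye) heA' hyA' with h | h
    · exact h
    · exact absurd h (hroot t' ht' A' hA' hc y (Finset.mem_erase.mpr ⟨hye, hy⟩) hyA')
  -- reduced data
  let U : ℕ → Finset α → Prop := fun t A => ∃ t' ≤ t, ∃ A0, A0 ⊆ A ∧ c t' A0 = l
  have hUmono : ∀ s t A B, s ≤ t → A ⊆ B → U s A → U t B := by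
    rintro s t A B hst hAB ⟨t', ht', A0, hA0, hc⟩
    exact ⟨t', ht'.trans hst, A0, hA0.trans hAB, hc⟩
  let c' : ℕ → Finset α → κ := fun t A => if U t A then c t (insert e A) else c t A
  let R' : ℕ → Finset α → α → α → Prop := fun t A =>
    if U t A then R t (insert e A) else R t A
  have hCss : C.erase l ⊂ C := Finset.erase_ssubset hlC
  have hcard' : (W.erase e).card = (C.erase l).card + 1 := by
    rw [Finset.card_erase_of_mem heW, Finset.card_erase_of_mem hlC]
    have : 0 < C.card := Finset.card_pos.mpr ⟨l, hlC⟩
    omega
  have htot' : Total (C.erase l) (W.erase e) c' R' := by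
    intro t B hB hcB x hx y hy hxy hxB hyB
    obtain ⟨hxe, hxW⟩ := Finset.mem_erase.mp hx
    obtain ⟨hye, hyW⟩ := Finset.mem_erase.mp hy
    by_cases hU : U t B
    · simp only [c', if_pos hU] at hcB
      simp only [R', if_pos hU]
      refine htot t (insert e B) ?_ (Finset.mem_of_mem_erase hcB) x hxW y hyW hxy ?_ ?_
      · refine ⟨?_, ?_⟩
        · intro z hz
          rcases Finset.mem_insert.mp hz with rfl | hz
          · exact heW
          · exact Finset.mem_of_mem_erase (hB.1 hz)
        · intro hsub
          apply hB.2
          intro z hz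
          rcases Finset.mem_insert.mp (hsub (Finset.mem_of_mem_erase hz)) with rfl | h
          · simp at hz
          · exact h
      · simp [hxe, hxB]
      · simp [hye, hyB]
    · simp only [c', if_neg hU] at hcB
      simp only [R', if_neg hU]
      exact htot t B (lt_of_lt_of_le hB (Finset.erase_subset _ _)) (Finset.mem_of_mem_erase hcB)
        x hxW y hyW hxy hxB hyB
  obtain ⟨d, hd, B, hBmono, hBsub, hBgood⟩ := ih (C.erase l) hCss (W.erase e) c' R' hcard' htot' n0
  obtain ⟨hde, hdW⟩ := Finset.mem_erase.mp hd
  have heB : ∀ t, e ∉ B t := fun t h => by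
    have := hBsub t h
    simp at this
  have hdB : ∀ t, d ∉ B t := fun t h => by
    have := hBsub t h
    simp at this
  apply hn0
  refine ⟨d, hdW, fun t => if U t (B t) then insert e (B t) else B t, ?_, ?_, ?_⟩
  · intro s t hst
    dsimp only
    by_cases hs : U s (B s)
    · have ht : U t (B t) := hUmono _ _ _ _ hst (hBmono hst) hs
      rw [if_pos hs, if_pos ht]
      exact Finset.insert_subset_insert _ (hBmono hst)
    · rw [if_neg hs]
      by_cases ht : U t (B t)
      · rw [if_pos ht]
        exact (hBmono hst).trans (Finset.subset_insert _ _)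
      · rw [if_neg ht]
        exact hBmono hst
  · intro t
    have hsub : B t ⊆ W.erase d := by
      intro z hz
      have := hBsub t hz
      simp only [Finset.mem_erase] at this ⊢
      exact ⟨this.1, this.2.2⟩
    dsimp only
    split_ifs
    · intro z hz
      rcases Finset.mem_insert.mp hz with rfl | hz
      · exact Finset.mem_erase.mpr ⟨Ne.symm hde, heW⟩
      · exact hsub hz
    · exact hsub
  · intro t ht
    dsimp only
    by_cases hU : U t (B t)
    · rw [if_pos hU]
      by_cases hcl : c t (insert e (B t)) = l
      · -- colour `l`: use the root below together with `y = e`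
        obtain ⟨t', ht', A0, hA0, hc0⟩ := hU
        right
        refine ⟨t', ht', A0, ?_, by rw [hc0, hcl], e, Finset.mem_insert_self _ _, ?_, ?_⟩
        · refine ⟨hA0.trans (Finset.subset_insert _ _), fun h => ?_⟩
          exact heB t (hA0 (h (Finset.mem_insert_self _ _)))
        · exact fun h => heB t (hA0 h)
        · refine hsrc t' (by omega) A0 ?_ hc0 d hdW hde (fun h => hdB t (hA0 h))
          refine ⟨hA0.trans ((hBsub t).trans (Finset.erase_subset _ _)), fun h => ?_⟩
          exact hdB t (hA0 (h hd))
      · rcases hBgood t ht with h | ⟨t', ht', A', hA', hcA', y, hy, hyA', hR⟩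
        · left
          simp only [c', if_pos hU] at h
          intro hmem
          exact h (Finset.mem_erase.mpr ⟨hcl, hmem⟩)
        · right
          simp only [c', if_pos hU] at hcA'
          by_cases hU' : U t' A'
          · simp only [if_pos hU'] at hcA'
            simp only [R', if_pos hU'] at hR
            refine ⟨t', ht', insert e A', ?_, hcA', y, Finset.mem_insert_of_mem hy, ?_, hR⟩
            · refine ⟨Finset.insert_subset_insert _ hA'.1, fun h => hA'.2 ?_⟩
              intro z hz
              rcases Finset.mem_insert.mp (h (Finset.mem_insert_of_mem hz)) with rfl | h'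
              · exact absurd hz (heB t)
              · exact h'
            · intro hmem
              rcases Finset.mem_insert.mp hmem with rfl | h'
              · exact heB t hy
              · exact hyA' h'
          · simp only [if_neg hU'] at hcA'
            simp only [R', if_neg hU'] at hR
            exact ⟨t', ht', A', lt_of_lt_of_le hA' (Finset.subset_insert _ _), hcA', y,
              Finset.mem_insert_of_mem hy, hyA', hR⟩
    · rw [if_neg hU]
      rcases hBgood t ht with h | ⟨t', ht', A', hA', hcA', y, hy, hyA', hR⟩
      · left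
        simp only [c', if_neg hU] at h
        intro hmem
        refine h (Finset.mem_erase.mpr ⟨fun hcl => hU ?_, hmem⟩)
        exact ⟨t, le_rfl, B t, subset_rfl, hcl⟩
      · right
        have hU' : ¬ U t' A' := fun h => hU (hUmono _ _ _ _ ht' hA'.1 h)
        simp only [c', if_neg hU, if_neg hU'] at hcA'
        simp only [R', if_neg hU'] at hR
        exact ⟨t', ht', A', hA', hcA', y, hy, hyA', hR⟩

end Pool.Agent.R163.VPath
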